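import Mathlib
import Pool.Agent.Q292.Ess.Tent

/-!
# Essential and influential edges: the conjecture holds for every fixed edge and fails uniformly

Part 1: for all parameters and every fixed edge `e` of `ℤ^d` there are `C` and `n₀` such that the
three inequalities hold for all `n ≥ n₀`.

Part 2: if some coordinate of `v` vanishes and `(b - a) |v|₁ ≤ 4 a`, then for arbitrarily large `n`
some edge `j` of `G_n` is semi-essential with positive probability and is never very influential.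

Part 3: if `|v|₁ = 1` then, whatever `a < b`, `p` and `d ≥ 2` are, no constant works for all `n` and
all `j` in `W_n`.
-/

namespace Pool.Agent.Results.MP_b09029_pr.Comparability

open Q292.Ess MeasureTheory ProbabilityTheory

theorem result :
    (∀ (d : ℕ) (a b : ℝ) (p : unitInterval) (v : Fin d → ℤ), 2 ≤ d → 0 < a → a < b →
      0 < (p : ℝ) → (p : ℝ) < 1 → v ≠ 0 → (∀ i, |v i| ≤ 2) →
      ∀ e : (lattice d).edgeSet, ∃ C : ℝ, ∃ n0 : ℕ, ∀ n ≥ n0,
        ∃ h : (e : Sym2 (Fin d → ℤ)) ∈ (G d n).edgeSet,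
          (law d n p).real (Influential a b v ⟨e, h⟩) ≤
            C * (law d n p).real (VeryInfluential a b v ⟨e, h⟩) ∧
          (law d n p).real (SemiEssential a b v ⟨e, h⟩) ≤
            C * (law d n p).real (Essential a b v ⟨e, h⟩) ∧
          (law d n p).real (SemiEssential a b v ⟨e, h⟩) ≤
            C * (law d n p).real (VeryInfluential a b v ⟨e, h⟩)) ∧
    (∀ (d : ℕ) (a b : ℝ) (p : unitInterval) (v : Fin d → ℤ), 2 ≤ d → 0 < a → a < b →
      0 < (p : ℝ) → (p : ℝ) < 1 → v ≠ 0 → (∀ i, |v i| ≤ 2) → (∃ i, v i = 0) →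
      (b - a) * ((∑ i, |v i| : ℤ) : ℝ) ≤ 4 * a →
      ∀ N : ℕ, ∃ n ≥ N, ∃ j : W d n, 0 < (law d n p).real (SemiEssential a b v j) ∧
        (law d n p).real (VeryInfluential a b v j) = 0) ∧
    (∀ (d : ℕ) (a b : ℝ) (p : unitInterval) (v : Fin d → ℤ), 2 ≤ d → 0 < a → a < b →
      0 < (p : ℝ) → (p : ℝ) < 1 → ∑ i, |v i| = 1 →
      ¬ ∃ C : ℝ, ∀ n ≥ 1, ∀ j : W d n, (law d n p).real (SemiEssential a b v j) ≤
        C * (law d n p).real (VeryInfluential a b v j)) := by
  refine ⟨?_, ?_, ?_⟩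
  · intro d a b p v hd ha hab hp0 hp1 hv hv2 e
    exact fixed_edge hd ha hab p hp0 hp1 hv hv2 e
  · rintro d a b p v - ha hab hp0 hp1 hv hv2 ⟨i, hi⟩ hr N
    exact tent_large ha hab p hp0 hp1 hv hv2 i hi hr N
  · rintro d a b p v hd ha hab hp0 hp1 hv ⟨C, hC⟩
    obtain ⟨n, hn, j, h1, h2⟩ := tent_unit hd ha hab p hp0 hp1 hv
    have := hC n hn j
    rw [h2, mul_zero] at this
    linarith

end Pool.Agent.Results.MP_b09029_pr.Comparability
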